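import Pool.Agent.Helper72.UGB.Tuples

/-!
# UGU-4: pairs of prime cubes with a common vertex, constants independent of `W`

The proof of `UGB.shared` with the residue class kept in the tuples. The tuple bound is a hypothesis.
-/

set_option autoImplicit false

namespace UGU

open Finset MRP UGB

/-- The subset of the double block with the given traces. -/
private def EE {d : ℕ} (q : Finset (Fin d) × Finset (Fin d)) : Finset (Fin (d + d)) :=
  q.1.map (Fin.castAddEmb d) ∪ q.2.map (Fin.natAddEmb d)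

private theorem mem_EE_left {d : ℕ} (q : Finset (Fin d) × Finset (Fin d)) (i : Fin d) :
    Fin.castAdd d i ∈ EE q ↔ i ∈ q.1 := by
  simp only [EE, mem_union, mem_map, Fin.castAddEmb_apply, Fin.natAddEmb_apply]
  constructor
  · rintro (⟨j, hj, h⟩ | ⟨j, hj, h⟩)
    · rwa [← Fin.castAdd_injective d d h]
    · exfalso
      have := congrArg Fin.val h
      simp only [Fin.val_natAdd, Fin.val_castAdd] at this
      omega
  · intro h
    exact Or.inl ⟨i, h, rfl⟩

private theorem mem_EE_right {d : ℕ} (q : Finset (Fin d) × Finset (Fin d)) (i : Fin d) :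
    Fin.natAdd d i ∈ EE q ↔ i ∈ q.2 := by
  simp only [EE, mem_union, mem_map, Fin.castAddEmb_apply, Fin.natAddEmb_apply]
  constructor
  · rintro (⟨j, hj, h⟩ | ⟨j, hj, h⟩)
    · exfalso
      have := congrArg Fin.val h
      simp only [Fin.val_natAdd, Fin.val_castAdd] at this
      omega
    · have h1 := Fin.natAdd_injective d d h
      rwa [← h1]
  · intro h
    exact Or.inr ⟨i, h, rfl⟩

private theorem EE_injective {d : ℕ} : Function.Injective (EE (d := d)) := by
  intro q q' h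
  refine Prod.ext ?_ ?_
  · ext i
    rw [← mem_EE_left q i, ← mem_EE_left q' i, h]
  · ext i
    rw [← mem_EE_right q i, ← mem_EE_right q' i, h]

private theorem off_EE {d : ℕ} (W : ℕ) (b b' : Fin d → ℕ) (q : Finset (Fin d) × Finset (Fin d)) :
    off W (Fin.append b b') (EE q) = off W b q.1 + off W b' q.2 := by
  unfold off EE
  rw [sum_union, sum_map, sum_map, mul_add]
  · simp only [Fin.castAddEmb_apply, Fin.natAddEmb_apply, Fin.append_left, Fin.append_right]
  · rw [disjoint_left]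
    intro a ha hb
    rw [mem_map] at ha hb
    obtain ⟨i, -, rfl⟩ := ha
    obtain ⟨j, -, h⟩ := hb
    have := congrArg Fin.val h
    simp only [Fin.castAddEmb_apply, Fin.natAddEmb_apply, Fin.val_natAdd, Fin.val_castAdd] at this
    omega

private theorem append_injective {d : ℕ} {b b' c c' : Fin d → ℕ} (h : Fin.append b b' = Fin.append c c') :
    b = c ∧ b' = c' := by
  constructor
  · funext i
    have := congrFun h (Fin.castAdd d i)
    simpa using this
  · funext i
    have := congrFun h (Fin.natAdd d i)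
    rwa [Fin.append_right, Fin.append_right] at this

/-- The pairs of traces. -/
private def QQ {d : ℕ} (s₀ : Finset (Fin d)) : Finset (Finset (Fin d) × Finset (Fin d)) :=
  (univ ×ˢ {s₀}) ∪ ({s₀} ×ˢ univ.erase s₀)

private theorem card_QQ {d : ℕ} (s₀ : Finset (Fin d)) : (QQ s₀).card = 2 ^ (d + 1) - 1 := by
  unfold QQ
  rw [card_union_of_disjoint]
  · rw [card_product, card_product, card_singleton, card_erase_of_mem (mem_univ _), card_univ,
      Fintype.card_finset, Fintype.card_fin, pow_succ]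
    have : 1 ≤ 2 ^ d := Nat.one_le_two_pow
    omega
  · rw [disjoint_left]
    rintro ⟨s, s'⟩ h h'
    rw [mem_product] at h h'
    exact (mem_erase.1 h'.2).1 (mem_singleton.1 h.2)

theorem sharedU_of (H : ∀ D m : ℕ, ∃ C : ℝ, 0 < C ∧ ∀ W : ℕ, 0 < W → ∃ P₀ : ℕ, ∀ P : ℕ, P₀ ≤ P →
      ∀ r : ℕ, r.Coprime W → ∀ 𝒯 : Finset (Finset (Fin D)), 𝒯.card = m →
        ∑ v ∈ bx D (P / W), ((((Icc 1 (2 * P)).filter
          (fun n => n % W = r ∧ ∀ T ∈ 𝒯, (n + off W v T).Prime)).card : ℕ) : ℝ) ≤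
          C * ((W : ℝ) / (Nat.totient W * Real.log P)) ^ m * ((P / W : ℕ) : ℝ) ^ (D + 1)) (d : ℕ) :
    ∃ C : ℝ, 0 < C ∧ ∀ W : ℕ, 0 < W → ∃ P₀ : ℕ, ∀ P : ℕ, P₀ ≤ P → ∀ r : ℕ, r.Coprime W →
      ∀ s₀ : Finset (Fin d),
        ∑ t ∈ AP P W r, (((bx d (P / W)).filter
          (fun b => ∃ p ∈ cub (AP P W r) W b, p + off W b s₀ = t)).card : ℝ) ^ 2 ≤
          C * ((W : ℝ) / (Nat.totient W * Real.log P)) ^ (2 ^ (d + 1) - 1) *
            ((P / W : ℕ) : ℝ) ^ (2 * d + 1) := by
  obtain ⟨C, hC, H₁⟩ := H (d + d) (2 ^ (d + 1) - 1)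
  refine ⟨C, hC, fun W hW => ?_⟩
  obtain ⟨P₀, hP₀⟩ := H₁ W hW
  refine ⟨P₀, fun P hP r hr s₀ => ?_⟩
  have key := hP₀ P hP r hr ((QQ s₀).image EE)
    (by rw [card_image_of_injective _ EE_injective, card_QQ])
  have e0 : 2 * d + 1 = d + d + 1 := by ring
  rw [e0]
  refine le_trans ?_ key
  have hAP : ∀ q ∈ AP P W r, P < q ∧ q ≤ 2 * P ∧ q.Prime := by
    intro q hq
    rw [AP, mem_filter, dyP, mem_filter, mem_Ioc] at hq
    exact ⟨hq.1.1.1, hq.1.1.2, hq.1.2⟩
  have hmod : ∀ q ∈ AP P W r, q % W = r := by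
    intro q hq
    rw [AP, mem_filter] at hq
    exact hq.2
  set B : ℕ → Finset (Fin d → ℕ) := fun t => (bx d (P / W)).filter
        (fun b => ∃ p ∈ cub (AP P W r) W b, p + off W b s₀ = t) with hB
  set F : (Fin (d + d) → ℕ) → Finset ℕ := fun v => (Icc 1 (2 * P)).filter
    (fun n => n % W = r ∧ ∀ T ∈ (QQ s₀).image EE, (n + off W v T).Prime) with hF
  have h1 : ∑ t ∈ AP P W r, ((B t).card : ℝ) ^ 2 =
      (((AP P W r).sigma fun t => B t ×ˢ B t).card : ℝ) := by
    rw [card_sigma, Nat.cast_sum]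
    refine sum_congr rfl fun t _ => ?_
    rw [card_product, Nat.cast_mul, sq]
  have h2 : ∑ v ∈ bx (d + d) (P / W), ((F v).card : ℝ) = (((bx (d + d) (P / W)).sigma F).card : ℝ) := by
    rw [card_sigma, Nat.cast_sum]
  rw [h1, h2, Nat.cast_le]
  refine card_le_card_of_injOn
    (fun x : (_ : ℕ) × ((Fin d → ℕ) × (Fin d → ℕ)) =>
      (⟨Fin.append x.2.1 x.2.2, x.1 - off W x.2.1 s₀ - off W x.2.2 s₀⟩ : (_ : Fin (d + d) → ℕ) × ℕ)) ?_ ?_
  · rintro ⟨t, b, b'⟩ hx
    rw [mem_coe, mem_sigma, mem_product] at hx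
    obtain ⟨ht, hb, hb'⟩ := hx
    simp only at ht hb hb' ⊢
    rw [hB] at hb hb'
    simp only [mem_filter] at hb hb'
    obtain ⟨hb, p, hp, hpt⟩ := hb
    obtain ⟨hb', p', hp', hpt'⟩ := hb'
    rw [cub, mem_filter] at hp hp'
    obtain ⟨hpA, hpc⟩ := hp
    obtain ⟨hpA', hpc'⟩ := hp'
    have a1 := hAP p hpA
    have a2 := hAP p' hpA'
    have a3 := hAP t ht
    rw [mem_coe, mem_sigma]
    simp only
    refine ⟨?_, ?_⟩
    · rw [mem_bx] at hb hb' ⊢
      intro i
      refine Fin.addCases (fun j => ?_) (fun j => ?_) i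
      · rw [Fin.append_left]
        exact hb j
      · rw [Fin.append_right]
        exact hb' j
    · rw [hF]
      simp only [mem_filter, mem_Icc]
      refine ⟨by omega, ?_, ?_⟩
      · have h7 : t - off W b s₀ - off W b' s₀ +
            W * (∑ i ∈ s₀, b i + ∑ i ∈ s₀, b' i) = t := by
          have h8 : W * (∑ i ∈ s₀, b i + ∑ i ∈ s₀, b' i) = off W b s₀ + off W b' s₀ := by
            unfold off
            rw [mul_add]
          rw [h8]
          omega
        rw [← Nat.add_mul_mod_self_left _ W (∑ i ∈ s₀, b i + ∑ i ∈ s₀, b' i), h7]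
        exact hmod t ht
      intro T hT
      rw [mem_image] at hT
      obtain ⟨q, hq, rfl⟩ := hT
      rw [off_EE]
      rw [QQ, mem_union, mem_product, mem_product, mem_singleton, mem_singleton] at hq
      rcases hq with ⟨-, hq⟩ | ⟨hq, -⟩
      · have h3 := (hAP _ (hpc q.1)).2.2
        have h4 : t - off W b s₀ - off W b' s₀ + (off W b q.1 + off W b' q.2) = p + off W b q.1 := by
          rw [hq]
          omega
        rw [h4]
        exact h3
      · have h3 := (hAP _ (hpc' q.2)).2.2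
        have h4 : t - off W b s₀ - off W b' s₀ + (off W b q.1 + off W b' q.2) = p' + off W b' q.2 := by
          rw [hq]
          omega
        rw [h4]
        exact h3
  · rintro ⟨t, b, b'⟩ hx ⟨u, c, c'⟩ hy h
    rw [mem_coe, mem_sigma, mem_product] at hx hy
    obtain ⟨ht, hb, hb'⟩ := hx
    obtain ⟨hu, hc, hc'⟩ := hy
    simp only at ht hb hb' hu hc hc'
    rw [hB] at hb hb' hc hc'
    simp only [mem_filter] at hb hb' hc hc'
    obtain ⟨hb, p, hp, hpt⟩ := hb
    obtain ⟨hb', p', hp', hpt'⟩ := hb'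
    obtain ⟨hc, q, hq, hqt⟩ := hc
    obtain ⟨hc', q', hq', hqt'⟩ := hc'
    have a1 := hAP p (mem_filter.1 hp).1
    have a2 := hAP p' (mem_filter.1 hp').1
    have a3 := hAP t ht
    have a4 := hAP q (mem_filter.1 hq).1
    have a5 := hAP q' (mem_filter.1 hq').1
    have a6 := hAP u hu
    rw [Sigma.mk.injEq] at h
    obtain ⟨h3, h4⟩ := h
    obtain ⟨rfl, rfl⟩ := append_injective h3
    have h5 : t - off W b s₀ - off W b' s₀ = u - off W b s₀ - off W b' s₀ := eq_of_heq h4
    have h6 : t = u := by omega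
    rw [h6]

end UGU
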