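import Pool.Agent.Helper72.UGB.WForm
import Pool.Agent.Helper72.UGB.Coin

/-!
# UGU-2: prime tuples in a residue class on average, constants independent of the modulus

The proof of `UGB.tuples` with the sieve bound in the class (hypothesis `K`).
-/

set_option autoImplicit false

namespace UGU

open Finset MRP UGB

open Pool.Agent.Helper83

private def ss {D : ℕ} (v : Fin D → ℕ) (T : Finset (Fin D)) : ℕ := ∑ i ∈ T, v i

private theorem off_eq {D : ℕ} (W : ℕ) (v : Fin D → ℕ) (T : Finset (Fin D)) :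
    off W v T = W * ss v T := rfl

private theorem cnt_le {D : ℕ} (W P r : ℕ) (v : Fin D → ℕ)
    (𝒯 : Finset (Finset (Fin D))) :
    ((Icc 1 (2 * P)).filter (fun n => n % W = r ∧ ∀ T ∈ 𝒯, (n + off W v T).Prime)).card ≤
      1 + ((Icc 1 (2 * P / W)).filter
        (fun y => ∀ i ∈ 𝒯.image (ss v), (W * (y + i) + r).Prime)).card := by
  classical
  have h : ((Icc 1 (2 * P)).filter
        (fun n => n % W = r ∧ ∀ T ∈ 𝒯, (n + off W v T).Prime)).card ≤
      (insert 0 ((Icc 1 (2 * P / W)).filter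
        (fun y => ∀ i ∈ 𝒯.image (ss v), (W * (y + i) + r).Prime))).card := by
    refine card_le_card_of_injOn (fun n => n / W) ?_ ?_
    · intro n hn
      rw [mem_coe, mem_filter, mem_Icc] at hn
      obtain ⟨⟨h1, h2⟩, h3, h4⟩ := hn
      rw [mem_coe, mem_insert]
      rcases Nat.eq_zero_or_pos (n / W) with h0 | h0
      · exact Or.inl h0
      · right
        rw [mem_filter, mem_Icc]
        refine ⟨⟨h0, Nat.div_le_div_right h2⟩, ?_⟩
        rw [forall_mem_image]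
        intro T hT
        have h5 := h4 T hT
        have h6 : W * (n / W + ss v T) + r = n + off W v T := by
          rw [off_eq, mul_add]
          have := Nat.div_add_mod n W
          omega
        rw [h6]
        exact h5
    · intro n hn n' hn' he
      rw [mem_coe, mem_filter] at hn hn'
      have h1 := Nat.div_add_mod n W
      have h2 := Nat.div_add_mod n' W
      simp only at he
      rw [hn.2.1, he] at h1
      rw [hn'.2.1] at h2
      omega
  have h' := card_insert_le 0 ((Icc 1 (2 * P / W)).filter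
        (fun y => ∀ i ∈ 𝒯.image (ss v), (W * (y + i) + r).Prime))
  omega

private theorem prod_le {ι : Type} (J : Finset ι) (w : ι → ℝ) (hw : ∀ j ∈ J, 1 ≤ w j) (m : ℕ) :
    ∏ j ∈ J, w j ^ m ≤ 1 + ∑ j ∈ J, w j ^ (m * J.card) := by
  classical
  rcases J.eq_empty_or_nonempty with rfl | hJ
  · simp
  obtain ⟨j₀, hj₀, hmax⟩ := J.exists_max_image w hJ
  have h0 : 0 ≤ w j₀ := le_trans zero_le_one (hw _ hj₀)
  have h1 : ∏ j ∈ J, w j ^ m ≤ w j₀ ^ (m * J.card) := by
    calc ∏ j ∈ J, w j ^ m ≤ ∏ _j ∈ J, w j₀ ^ m :=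
          Finset.prod_le_prod (fun j hj => by have := hw j hj; positivity)
            (fun j hj => pow_le_pow_left₀ (by have := hw j hj; linarith) (hmax j hj) m)
      _ = w j₀ ^ (m * J.card) := by rw [Finset.prod_const, ← pow_mul]
  have h2 : w j₀ ^ (m * J.card) ≤ ∑ j ∈ J, w j ^ (m * J.card) :=
    Finset.single_le_sum (f := fun j => w j ^ (m * J.card))
      (fun j hj => by have := hw j hj; positivity) hj₀
  linarith

private theorem prod_image {D : ℕ} (𝒯 : Finset (Finset (Fin D))) (v : Fin D → ℕ) (m : ℕ)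
    (hinj : Set.InjOn (ss v) (𝒯 : Set (Finset (Fin D)))) :
    ∏ x ∈ (𝒯.image (ss v)).offDiag, HLC.W (Nat.dist x.1 x.2) ^ m =
      ∏ x ∈ 𝒯.offDiag, HLC.W (Nat.dist (ss v x.1) (ss v x.2)) ^ m := by
  classical
  symm
  refine Finset.prod_nbij (fun x => (ss v x.1, ss v x.2)) ?_ ?_ ?_ ?_
  · intro x hx
    rw [Finset.mem_offDiag] at hx ⊢
    exact ⟨Finset.mem_image_of_mem _ hx.1, Finset.mem_image_of_mem _ hx.2.1,
      fun he => hx.2.2 (hinj hx.1 hx.2.1 he)⟩
  · intro x hx y hy he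
    rw [Finset.mem_coe, Finset.mem_offDiag] at hx hy
    simp only [Prod.mk.injEq] at he
    exact Prod.ext (hinj hx.1 hy.1 he.1) (hinj hx.2.1 hy.2.1 he.2)
  · intro y hy
    rw [Finset.mem_coe, Finset.mem_offDiag] at hy
    obtain ⟨a, ha, hay⟩ := Finset.mem_image.1 hy.1
    obtain ⟨b, hb, hby⟩ := Finset.mem_image.1 hy.2.1
    refine ⟨(a, b), ?_, ?_⟩
    · rw [Finset.mem_coe, Finset.mem_offDiag]
      refine ⟨ha, hb, fun he => hy.2.2 ?_⟩
      simp only at he
      rw [← hay, ← hby, he]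
    · simp only [hay, hby]
  · intro x _
    rfl

/-- The exceptional tuples. -/
private theorem bad_le (D N : ℕ) (𝒯 : Finset (Finset (Fin D))) :
    ((bx D N).filter (fun v => ¬ Set.InjOn (ss v) (𝒯 : Set (Finset (Fin D))))).card * N ≤
      (𝒯.card * 𝒯.card - 𝒯.card) * N ^ D := by
  classical
  have hsub : (bx D N).filter (fun v => ¬ Set.InjOn (ss v) (𝒯 : Set (Finset (Fin D)))) ⊆
      𝒯.offDiag.biUnion (fun x =>
        (bx D N).filter (fun v => ∑ i ∈ x.1, v i = ∑ i ∈ x.2, v i)) := by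
    intro v hv
    rw [Finset.mem_filter] at hv
    obtain ⟨hv1, hv2⟩ := hv
    unfold Set.InjOn at hv2
    push Not at hv2
    obtain ⟨T, hT, T', hT', he, hne⟩ := hv2
    rw [Finset.mem_biUnion]
    exact ⟨(T, T'), Finset.mem_offDiag.2 ⟨hT, hT', hne⟩, Finset.mem_filter.2 ⟨hv1, he⟩⟩
  calc ((bx D N).filter (fun v => ¬ Set.InjOn (ss v) (𝒯 : Set (Finset (Fin D))))).card * N
      ≤ (∑ x ∈ 𝒯.offDiag,
          ((bx D N).filter (fun v => ∑ i ∈ x.1, v i = ∑ i ∈ x.2, v i)).card) * N :=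
        Nat.mul_le_mul_right _ ((Finset.card_le_card hsub).trans Finset.card_biUnion_le)
    _ = ∑ x ∈ 𝒯.offDiag,
          ((bx D N).filter (fun v => ∑ i ∈ x.1, v i = ∑ i ∈ x.2, v i)).card * N := by
        rw [Finset.sum_mul]
    _ ≤ ∑ _x ∈ 𝒯.offDiag, N ^ D := by
        refine Finset.sum_le_sum fun x hx => ?_
        rw [Finset.mem_offDiag] at hx
        exact coin D N x.1 x.2 hx.2.2
    _ = (𝒯.card * 𝒯.card - 𝒯.card) * N ^ D := by
        rw [Finset.sum_const, Finset.offDiag_card, smul_eq_mul]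

/-- `al^k N ≥ 1` for large `P`. -/
theorem one_le_al (W k : ℕ) (hW : 0 < W) : ∃ P₀ : ℕ, ∀ P : ℕ, P₀ ≤ P →
    1 ≤ ((W : ℝ) / (Nat.totient W * Real.log P)) ^ k * ((P / W : ℕ) : ℝ) := by
  have hWR : (0 : ℝ) < W := by exact_mod_cast hW
  have h1 := (Real.isLittleO_pow_log_id_atTop (n := k)).bound
    (show (0 : ℝ) < 1 / (2 * W) by positivity)
  have h2 := tendsto_natCast_atTop_atTop (R := ℝ) |>.eventually h1
  obtain ⟨P₀, h⟩ := Filter.eventually_atTop.1 h2
  refine ⟨P₀ + 3 + W, fun P hP => ?_⟩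
  have hP3 : 3 ≤ P := by omega
  have hPW : W ≤ P := by omega
  have hPr : (3 : ℝ) ≤ P := by exact_mod_cast hP3
  have hL : 0 < Real.log P := Real.log_pos (by linarith)
  have h3 := h P (by omega)
  rw [Real.norm_eq_abs, Real.norm_eq_abs, id, abs_of_nonneg (Nat.cast_nonneg (α := ℝ) P)] at h3
  have h4 : Real.log P ^ k ≤ 1 / (2 * W) * P := (le_abs_self _).trans h3
  have h5 : P ≤ 2 * W * (P / W) := by
    have h6 : P < W * (P / W + 1) := Nat.lt_mul_div_succ P hW
    have hN1 : 1 ≤ P / W := (Nat.one_le_div_iff hW).2 hPW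
    have h7 : W * (P / W + 1) ≤ W * (2 * (P / W)) := Nat.mul_le_mul_left _ (by omega)
    calc P ≤ W * (2 * (P / W)) := by omega
      _ = 2 * W * (P / W) := by ring
  have h8 : (P : ℝ) ≤ 2 * W * ((P / W : ℕ) : ℝ) := by exact_mod_cast h5
  have hphi : 0 < Nat.totient W := Nat.totient_pos.2 hW
  have hphiR : (0 : ℝ) < (Nat.totient W : ℝ) := by exact_mod_cast hphi
  have hphile : (Nat.totient W : ℝ) ≤ W := by exact_mod_cast Nat.totient_le W
  have h9 : 1 / Real.log P ≤ (W : ℝ) / (Nat.totient W * Real.log P) := by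
    rw [div_le_div_iff₀ hL (by positivity)]
    nlinarith
  have h10 : (1 / Real.log P) ^ k ≤ ((W : ℝ) / (Nat.totient W * Real.log P)) ^ k :=
    pow_le_pow_left₀ (by positivity) h9 k
  have h11 : 1 ≤ (1 / Real.log P) ^ k * ((P / W : ℕ) : ℝ) := by
    rw [one_div, inv_pow, inv_mul_eq_div, le_div_iff₀ (by positivity), one_mul]
    refine h4.trans ?_
    rw [one_div, inv_mul_le_iff₀ (by positivity)]
    exact h8
  exact h11.trans (mul_le_mul_of_nonneg_right h10 (Nat.cast_nonneg _))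

theorem tuplesU_of (K : ∀ m : ℕ, ∃ C : ℝ, 0 < C ∧ ∀ Q : ℕ, 0 < Q → ∀ r X : ℕ, 2 ≤ X →
      ∀ s : Finset ℕ, s.card = m →
        ((((Icc 1 X).filter (fun y => ∀ i ∈ s, (Q * (y + i) + r).Prime)).card : ℕ) : ℝ) ≤
          C * ((Q : ℝ) / Nat.totient Q) ^ m * (X / (Real.log X) ^ m) *
            ∏ x ∈ s.offDiag, HLC.W (Nat.dist x.1 x.2) ^ m) (D m : ℕ) :
    ∃ C : ℝ, 0 < C ∧ ∀ W : ℕ, 0 < W → ∃ P₀ : ℕ, ∀ P : ℕ, P₀ ≤ P →
      ∀ r : ℕ, r.Coprime W → ∀ 𝒯 : Finset (Finset (Fin D)), 𝒯.card = m →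
        ∑ v ∈ bx D (P / W), ((((Icc 1 (2 * P)).filter
          (fun n => n % W = r ∧ ∀ T ∈ 𝒯, (n + off W v T).Prime)).card : ℕ) : ℝ) ≤
          C * ((W : ℝ) / (Nat.totient W * Real.log P)) ^ m * ((P / W : ℕ) : ℝ) ^ (D + 1) := by
  classical
  obtain ⟨C, hC, hK⟩ := K m
  obtain ⟨C₁, hC₁, hdist⟩ := sum_W_dist D (m * (m * m - m))
  set j : ℕ := m * m - m with hj
  refine ⟨1 + C * 3 * 2 ^ m * (1 + j * C₁) + 4 * j, by positivity, fun W hW => ?_⟩
  obtain ⟨P₁, hal⟩ := one_le_al W m hW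
  refine ⟨P₁ + 3 + W + 4 * W ^ 2, fun P hP r _hr 𝒯 h𝒯 => ?_⟩
  have hal1 := hal P (by omega)
  have hP3 : 3 ≤ P := by omega
  have hPW : W ≤ P := by omega
  have hPW2 : 4 * W ^ 2 ≤ P := by omega
  have hPR : (3 : ℝ) ≤ P := by exact_mod_cast hP3
  have hWR : (0 : ℝ) < W := by exact_mod_cast hW
  have hl : 0 < Real.log P := Real.log_pos (by linarith)
  have hphi : 0 < Nat.totient W := Nat.totient_pos.2 hW
  have hphiR : (0 : ℝ) < (Nat.totient W : ℝ) := by exact_mod_cast hphi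
  set a : ℝ := (W : ℝ) / (Nat.totient W * Real.log P) with ha
  have ha0 : 0 < a := by positivity
  set N : ℕ := P / W with hN
  set X : ℕ := 2 * P / W with hX
  have hN1 : 1 ≤ N := (Nat.one_le_div_iff hW).2 hPW
  have hNR : (1 : ℝ) ≤ N := by exact_mod_cast hN1
  have hX2 : 2 ≤ X := by
    rw [hX, Nat.le_div_iff_mul_le hW]
    omega
  have hX3 : X ≤ 2 * N + 1 := by
    have h1 : P < W * (N + 1) := by rw [hN]; exact Nat.lt_mul_div_succ P hW
    have h2 : X < 2 * (N + 1) := by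
      rw [hX, Nat.div_lt_iff_lt_mul hW]
      calc 2 * P < 2 * (W * (N + 1)) := by omega
        _ = 2 * (N + 1) * W := by ring
    omega
  have hX3R : (X : ℝ) ≤ 3 * N := by
    have : X ≤ 3 * N := by omega
    exact_mod_cast this
  -- log X ≥ log P / 2
  have hPX : P ≤ W * X := by
    have h1 : 2 * P < W * (X + 1) := by rw [hX]; exact Nat.lt_mul_div_succ (2 * P) hW
    have h2 : W * (X + 1) = W * X + W := by ring
    omega
  have hX0 : (0 : ℝ) < X := by exact_mod_cast (by omega : 0 < X)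
  have hlogX : Real.log P / 2 ≤ Real.log X := by
    have h1 : P ≤ X ^ 2 := by
      have h2 : P * P ≤ (W * X) * (W * X) := Nat.mul_le_mul hPX hPX
      have h3 : (W * X) * (W * X) = W ^ 2 * X ^ 2 := by ring
      have h4 : W ^ 2 * X ^ 2 ≤ P * X ^ 2 := Nat.mul_le_mul_right _ (by omega)
      have h5 : P * P ≤ P * X ^ 2 := by omega
      exact Nat.le_of_mul_le_mul_left h5 (by omega)
    have h2 : (P : ℝ) ≤ (X : ℝ) ^ 2 := by exact_mod_cast h1
    have h3 : Real.log P ≤ Real.log ((X : ℝ) ^ 2) := Real.log_le_log (by linarith) h2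
    rw [Real.log_pow] at h3
    push_cast at h3
    linarith
  have hlX : 0 < Real.log X := by linarith
  have hXl : (X : ℝ) / (Real.log X) ^ m ≤ 3 * 2 ^ m * (N / (Real.log P) ^ m) := by
    have h1 : (Real.log P / 2) ^ m ≤ (Real.log X) ^ m := pow_le_pow_left₀ (by linarith) hlogX m
    have h2 : (X : ℝ) / (Real.log X) ^ m ≤ 3 * N / (Real.log P / 2) ^ m :=
      div_le_div₀ (by positivity) hX3R (by positivity) h1
    refine h2.trans (le_of_eq ?_)
    rw [div_pow]
    field_simp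
  have hWa : ((W : ℝ) / Nat.totient W) ^ m / (Real.log P) ^ m = a ^ m := by
    rw [← div_pow, ha, div_div]
  set cnt : (Fin D → ℕ) → ℝ := fun v => ((((Icc 1 (2 * P)).filter
    (fun n => n % W = r ∧ ∀ T ∈ 𝒯, (n + off W v T).Prime)).card : ℕ) : ℝ) with hcnt
  set wt : (Fin D → ℕ) → Finset (Fin D) × Finset (Fin D) → ℝ := fun v x =>
    HLC.W (Nat.dist (∑ i ∈ x.1, v i) (∑ i ∈ x.2, v i)) ^ (m * (m * m - m)) with hwt
  have hwt0 : ∀ v x, 0 ≤ wt v x := fun v x =>
    pow_nonneg (le_trans zero_le_one (HLC.one_le_W _)) _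
  have hgood : ∀ v : Fin D → ℕ, Set.InjOn (ss v) (𝒯 : Set (Finset (Fin D))) →
      cnt v ≤ 1 + C * 3 * 2 ^ m * a ^ m * N * (1 + ∑ x ∈ 𝒯.offDiag, wt v x) := by
    intro v hinj
    have h1 : cnt v ≤ 1 + ((((Icc 1 X).filter
        (fun y => ∀ i ∈ 𝒯.image (ss v), (W * (y + i) + r).Prime)).card : ℕ) : ℝ) := by
      have := cnt_le W P r v 𝒯
      simp only [hcnt]
      exact_mod_cast this
    have h2 := hK W hW r X hX2 (𝒯.image (ss v)) (by rw [Finset.card_image_of_injOn hinj, h𝒯])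
    rw [prod_image 𝒯 v m hinj] at h2
    have h3 := prod_le 𝒯.offDiag (fun x => HLC.W (Nat.dist (ss v x.1) (ss v x.2)))
      (fun x _ => HLC.one_le_W _) m
    have hJ : (𝒯.offDiag).card = m * m - m := by rw [Finset.offDiag_card, h𝒯]
    rw [hJ] at h3
    have h4 : ∑ x ∈ 𝒯.offDiag, HLC.W (Nat.dist (ss v x.1) (ss v x.2)) ^ (m * (m * m - m)) =
        ∑ x ∈ 𝒯.offDiag, wt v x := rfl
    rw [h4] at h3
    have h5 : C * ((W : ℝ) / Nat.totient W) ^ m * (X / (Real.log X) ^ m) ≤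
        C * 3 * 2 ^ m * a ^ m * N := by
      calc C * ((W : ℝ) / Nat.totient W) ^ m * (X / (Real.log X) ^ m)
          ≤ C * ((W : ℝ) / Nat.totient W) ^ m * (3 * 2 ^ m * (N / (Real.log P) ^ m)) := by
            gcongr
        _ = C * 3 * 2 ^ m * (((W : ℝ) / Nat.totient W) ^ m / (Real.log P) ^ m) * N := by ring
        _ = _ := by rw [hWa]
    have h6 : 0 ≤ ∏ x ∈ 𝒯.offDiag, HLC.W (Nat.dist (ss v x.1) (ss v x.2)) ^ m :=
      Finset.prod_nonneg fun x _ => pow_nonneg (le_trans zero_le_one (HLC.one_le_W _)) _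
    have h7 := mul_le_mul h5 h3 h6 (by positivity)
    linarith
  -- the good tuples
  have h1 : ∑ v ∈ (bx D N).filter (fun v => Set.InjOn (ss v) (𝒯 : Set (Finset (Fin D)))), cnt v ≤
      (N : ℝ) ^ D + C * 3 * 2 ^ m * a ^ m * N * ((1 + j * C₁) * (N : ℝ) ^ D) := by
    calc ∑ v ∈ (bx D N).filter (fun v => Set.InjOn (ss v) (𝒯 : Set (Finset (Fin D)))), cnt v
        ≤ ∑ v ∈ (bx D N).filter (fun v => Set.InjOn (ss v) (𝒯 : Set (Finset (Fin D)))),
            (1 + C * 3 * 2 ^ m * a ^ m * N * (1 + ∑ x ∈ 𝒯.offDiag, wt v x)) := by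
          refine Finset.sum_le_sum fun v hv => ?_
          exact hgood v (Finset.mem_filter.1 hv).2
      _ ≤ ∑ v ∈ bx D N, (1 + C * 3 * 2 ^ m * a ^ m * N * (1 + ∑ x ∈ 𝒯.offDiag, wt v x)) := by
          refine Finset.sum_le_sum_of_subset_of_nonneg (Finset.filter_subset _ _) fun v _ _ => ?_
          have : 0 ≤ ∑ x ∈ 𝒯.offDiag, wt v x := Finset.sum_nonneg fun x _ => hwt0 v x
          positivity
      _ = (N : ℝ) ^ D + C * 3 * 2 ^ m * a ^ m * N *
            ((N : ℝ) ^ D + ∑ x ∈ 𝒯.offDiag, ∑ v ∈ bx D N, wt v x) := by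
          rw [Finset.sum_add_distrib, ← Finset.mul_sum, Finset.sum_add_distrib, Finset.sum_const,
            card_bx, nsmul_eq_mul, mul_one, Finset.sum_comm]
          push_cast
          ring
      _ ≤ _ := by
          have h2 : ∑ x ∈ 𝒯.offDiag, ∑ v ∈ bx D N, wt v x ≤ ∑ _x ∈ 𝒯.offDiag, C₁ * (N : ℝ) ^ D := by
            refine Finset.sum_le_sum fun x hx => ?_
            rw [Finset.mem_offDiag] at hx
            exact hdist N hN1 x.1 x.2 hx.2.2
          rw [Finset.sum_const, Finset.offDiag_card, h𝒯, nsmul_eq_mul] at h2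
          have h3 : (N : ℝ) ^ D + ∑ x ∈ 𝒯.offDiag, ∑ v ∈ bx D N, wt v x ≤
              (1 + j * C₁) * (N : ℝ) ^ D := by
            calc (N : ℝ) ^ D + ∑ x ∈ 𝒯.offDiag, ∑ v ∈ bx D N, wt v x
                ≤ (N : ℝ) ^ D + (j : ℝ) * (C₁ * (N : ℝ) ^ D) := by rw [hj]; linarith
              _ = _ := by ring
          have h4 := mul_le_mul_of_nonneg_left h3
            (show 0 ≤ C * 3 * 2 ^ m * a ^ m * N by positivity)
          linarith
  -- the bad tuples
  have h2 : ∑ v ∈ (bx D N).filter (fun v => ¬ Set.InjOn (ss v) (𝒯 : Set (Finset (Fin D)))),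
      cnt v ≤ 4 * j * (N : ℝ) ^ D := by
    have h3 : ∀ v, cnt v ≤ 4 * N := by
      intro v
      have h4 := cnt_le W P r v 𝒯
      rw [← hX] at h4
      have h5 : ((Icc 1 X).filter
          (fun y => ∀ i ∈ 𝒯.image (ss v), (W * (y + i) + r).Prime)).card ≤ X := by
        refine (Finset.card_filter_le _ _).trans ?_
        simp
      have h6 : ((Icc 1 (2 * P)).filter
          (fun n => n % W = r ∧ ∀ T ∈ 𝒯, (n + off W v T).Prime)).card ≤ 4 * N := by
        omega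
      simp only [hcnt]
      exact_mod_cast h6
    calc ∑ v ∈ (bx D N).filter (fun v => ¬ Set.InjOn (ss v) (𝒯 : Set (Finset (Fin D)))), cnt v
        ≤ ∑ _v ∈ (bx D N).filter (fun v => ¬ Set.InjOn (ss v) (𝒯 : Set (Finset (Fin D)))),
            (4 * N : ℝ) := Finset.sum_le_sum fun v _ => h3 v
      _ = 4 * ((((bx D N).filter
            (fun v => ¬ Set.InjOn (ss v) (𝒯 : Set (Finset (Fin D))))).card * N : ℕ) : ℝ) := by
          rw [Finset.sum_const, nsmul_eq_mul]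
          push_cast
          ring
      _ ≤ 4 * (((𝒯.card * 𝒯.card - 𝒯.card) * N ^ D : ℕ) : ℝ) := by
          refine mul_le_mul_of_nonneg_left ?_ (by positivity)
          exact_mod_cast bad_le D N 𝒯
      _ = 4 * j * (N : ℝ) ^ D := by
          rw [h𝒯, ← hj]
          push_cast
          ring
  have hND : (N : ℝ) ^ D ≤ a ^ m * (N : ℝ) ^ (D + 1) := by
    have h3 : (0 : ℝ) ≤ (N : ℝ) ^ D := by positivity
    calc (N : ℝ) ^ D ≤ (N : ℝ) ^ D * (a ^ m * N) := le_mul_of_one_le_right h3 hal1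
      _ = _ := by ring
  have hsplit := Finset.sum_filter_add_sum_filter_not (bx D N)
    (fun v => Set.InjOn (ss v) (𝒯 : Set (Finset (Fin D)))) cnt
  rw [← hsplit]
  have h6 : (4 * (j : ℝ) + 1) * (N : ℝ) ^ D ≤ (4 * j + 1) * (a ^ m * (N : ℝ) ^ (D + 1)) :=
    mul_le_mul_of_nonneg_left hND (by positivity)
  calc _ ≤ ((N : ℝ) ^ D + C * 3 * 2 ^ m * a ^ m * N * ((1 + j * C₁) * (N : ℝ) ^ D)) +
        4 * j * (N : ℝ) ^ D := add_le_add h1 h2
    _ = (4 * (j : ℝ) + 1) * (N : ℝ) ^ D +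
        C * 3 * 2 ^ m * (1 + j * C₁) * a ^ m * (N : ℝ) ^ (D + 1) := by ring
    _ ≤ (4 * j + 1) * (a ^ m * (N : ℝ) ^ (D + 1)) +
        C * 3 * 2 ^ m * (1 + j * C₁) * a ^ m * (N : ℝ) ^ (D + 1) := by linarith
    _ = _ := by ring

end UGU
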