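import Pool.Agent.Helper72.UGB.Gcs

/-!
# UGU-6: many cubes with sides divisible by `W`, constants independent of `W`

The proof of `UGB.gcsW` without the last rescaling: everything is expressed in `N = P / W`.
-/

set_option autoImplicit false

namespace UGU

open Finset MRP UGB

theorem gcsU (d : ℕ) : ∃ c C : ℝ, 0 < c ∧ 0 < C ∧ ∀ W : ℕ, 0 < W → ∀ P : ℕ, W ≤ P → ∀ r : ℕ,
    ∀ A : Finset ℕ, A ⊆ Ioc P (2 * P) → (∀ q ∈ A, q % W = r) →
      c * (A.card : ℝ) ^ (2 ^ d) * ((P / W : ℕ) : ℝ) ^ (d + 1) ≤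
        ((∑ b ∈ bx d (P / W), ((cub A W b).card : ℝ)) + C * ((P / W : ℕ) : ℝ) ^ d) *
          ((P / W : ℕ) : ℝ) ^ (2 ^ d) := by
  classical
  obtain ⟨c, C, hc, hC, hg⟩ := gcs d
  refine ⟨c, C, hc, hC, fun W hW P hP r A hA hAr => ?_⟩
  rcases A.eq_empty_or_nonempty with rfl | hne
  · have h0 : ((∅ : Finset ℕ).card : ℝ) ^ (2 ^ d) = 0 := by
      rw [Finset.card_empty, Nat.cast_zero, zero_pow (by positivity)]
    rw [h0, mul_zero, zero_mul]
    have : 0 ≤ ∑ b ∈ bx d (P / W), ((cub (∅ : Finset ℕ) W b).card : ℝ) :=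
      Finset.sum_nonneg fun b _ => Nat.cast_nonneg _
    positivity
  set N : ℕ := P / W with hN
  have hN1 : 1 ≤ N := (Nat.one_le_div_iff hW).2 hP
  set A' : Finset ℕ := A.image (fun q => q / W) with hA'
  have hne' : A'.Nonempty := hne.image _
  have hdec : ∀ q ∈ A, q = W * (q / W) + r := by
    intro q hq
    have := Nat.div_add_mod q W
    rw [hAr q hq] at this
    exact this.symm
  have hcard : A'.card = A.card := by
    refine Finset.card_image_of_injOn fun q hq q' hq' he => ?_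
    rw [hdec q hq, hdec q' hq', he]
  have hsub : A' ⊆ Icc (A'.min' hne') (A'.min' hne' + N) := by
    intro x hx
    rw [Finset.mem_Icc]
    refine ⟨Finset.min'_le _ _ hx, ?_⟩
    obtain ⟨q, hq, rfl⟩ := Finset.mem_image.1 hx
    obtain ⟨q₀, hq₀, he⟩ := Finset.mem_image.1 (Finset.min'_mem A' hne')
    rw [← he]
    have h1 := Finset.mem_Ioc.1 (hA hq)
    have h2 := Finset.mem_Ioc.1 (hA hq₀)
    have h3 := hdec q hq
    have h4 := hdec q₀ hq₀
    by_contra hcon
    push Not at hcon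
    have h5 : W * (q₀ / W + N + 1) ≤ W * (q / W) := Nat.mul_le_mul_left _ hcon
    have h6 : P < W * (N + 1) := by rw [hN]; exact Nat.lt_mul_div_succ P hW
    have h7 : W * (q₀ / W + N + 1) = W * (q₀ / W) + W * (N + 1) := by ring
    omega
  have hcub : ∀ b : Fin d → ℕ, ((cub A' 1 b).card : ℝ) ≤ ((cub A W b).card : ℝ) := by
    intro b
    have h1 : cub A' 1 b ⊆ (cub A W b).image (fun q => q / W) := by
      intro x hx
      obtain ⟨hx1, hx2⟩ := Finset.mem_filter.1 hx
      obtain ⟨p, hp, rfl⟩ := Finset.mem_image.1 hx1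
      refine Finset.mem_image.2 ⟨p, Finset.mem_filter.2 ⟨hp, fun s => ?_⟩, rfl⟩
      obtain ⟨q, hq, he⟩ := Finset.mem_image.1 (hx2 s)
      have h2 : p + off W b s = q := by
        have h3 := hdec p hp
        have h4 := hdec q hq
        unfold off at he ⊢
        rw [one_mul] at he
        rw [he, Nat.mul_add] at h4
        omega
      rw [h2]
      exact hq
    exact_mod_cast (Finset.card_le_card h1).trans Finset.card_image_le
  have h := hg N hN1 (A'.min' hne') A' hsub
  rw [hcard] at h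
  refine h.trans ?_
  have h4 : ∑ b ∈ bx d N, ((cub A' 1 b).card : ℝ) ≤ ∑ b ∈ bx d N, ((cub A W b).card : ℝ) :=
    Finset.sum_le_sum fun b _ => hcub b
  exact mul_le_mul_of_nonneg_right (by linarith) (pow_nonneg (Nat.cast_nonneg _) _)

end UGU
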